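import Mathlib
import Pool.Agent.Helper78.WeakMin.Reduce
import Pool.Agent.Helper78.WeakMin.Main0

set_option autoImplicit false

namespace Pool.Agent.Results.MP_b731ff_al.ConjugatePairs

open Subgroup (closure centralizer)
open Pool.Agent.Helper78.WeakMin

/-- Passing the hypotheses to a subgroup `M` and applying the main step. -/
theorem exists_pair {G : Type*} [Group G] (htor : ∀ g : G, IsOfFinOrder g)
    (hRF : ∀ g : G, g ≠ 1 → ∃ N : Subgroup G, N.Normal ∧ N.index ≠ 0 ∧ g ∉ N)
    (M : Subgroup G) (hM : Infinite M)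
    (hcent : ∀ h ∈ M, h ≠ 1 → Finite (centralizer ({h} : Set G) ⊓ M : Subgroup G)) :
    (∃ (q : ℕ) (x g : G), q.Prime ∧ q ≠ 2 ∧ x ∈ M ∧ g ∈ M ∧ orderOf x = q ∧
      Infinite (closure ({x, g⁻¹ * x * g} : Set G))) ∧ ∀ h ∈ M, orderOf h ≠ 2 := by
  have htor' : ∀ g : M, IsOfFinOrder g := fun g =>
    (Subgroup.subtype_injective M).isOfFinOrder_iff.1 (htor g)
  have hRF' : ∀ g : M, g ≠ 1 → ∃ N : Subgroup M, N.Normal ∧ N.index ≠ 0 ∧ g ∉ N := by
    intro g hg
    obtain ⟨N, hN, hNi, hgN⟩ := hRF g (fun h => hg (Subtype.ext h))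
    have hfi : N.FiniteIndex := ⟨hNi⟩
    refine ⟨N.subgroupOf M, inferInstance, ?_, hgN⟩
    exact Subgroup.FiniteIndex.index_ne_zero
  have hcent' : ∀ x : M, x ≠ 1 → Finite (centralizer ({x} : Set M)) := by
    intro x hx
    have hf := hcent x x.2 (fun h => hx (Subtype.ext h))
    let f : centralizer ({x} : Set M) → (centralizer ({(x : G)} : Set G) ⊓ M : Subgroup G) :=
      fun y => ⟨(y : M), Subgroup.mem_inf.2 ⟨by
        rw [Subgroup.mem_centralizer_iff]
        intro z hz
        rw [Set.mem_singleton_iff.1 hz]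
        exact congrArg Subtype.val (Subgroup.mem_centralizer_iff.1 y.2 x rfl), (y : M).2⟩⟩
    exact Finite.of_injective f (fun a b hab => by
      have h1 := congrArg Subtype.val hab
      exact Subtype.ext (Subtype.ext h1))
  refine ⟨?_, ?_⟩
  · by_contra hcon
    push Not at hcon
    refine main0 htor' hRF' hcent' ?_
    intro p hp hp2 x hx g
    have h1 := hcon p x g hp hp2 x.2 g.2 (by rw [← hx]; exact (Subgroup.orderOf_coe x))
    have h2 : (closure ({x, g⁻¹ * x * g} : Set M)).map M.subtype
        = closure ({(x : G), (g : G)⁻¹ * x * g} : Set G) := by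
      rw [MonoidHom.map_closure, Set.image_pair]
      rfl
    have h3 : Finite ((closure ({x, g⁻¹ * x * g} : Set M)).map M.subtype) := by
      rw [h2]; exact h1
    exact Finite.of_injective _
      ((closure ({x, g⁻¹ * x * g} : Set M)).equivMapOfInjective M.subtype
        M.subtype_injective).injective
  · intro h hh hord
    exact no_involution htor' hRF' hcent' ⟨h, hh⟩ (by
      rw [← hord]; exact (Subgroup.orderOf_coe (⟨h, hh⟩ : M)).symm)

/-- Let `G` be an infinite periodic residually finite group with the weak minimal condition on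
subgroups. Then `G` contains an infinite subgroup `H` generated by two conjugate elements `x` and
`g⁻¹ x g` of odd prime order such that: every subgroup of `H` is finite or has finite index in
`H`; all elements of `H` have odd order; all nontrivial elements of `H` have finite centralizer
in `H`; and every subgroup `M` of finite index in `H` contains elements `x'` (of odd prime order)
and `g'` such that `x'` and `g'⁻¹ x' g'` generate an infinite subgroup. -/
theorem result (G : Type*) [Group G] (hinf : Infinite G) (htor : ∀ g : G, IsOfFinOrder g)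
    (hRF : ∀ g : G, g ≠ 1 → ∃ N : Subgroup G, N.Normal ∧ N.index ≠ 0 ∧ g ∉ N)
    (hmin : ∀ H : ℕ → Subgroup G, Antitone H →
        ∃ n : ℕ, ∀ m : ℕ, n ≤ m → ((H (m + 1)).subgroupOf (H m)).index ≠ 0) :
    ∃ (p : ℕ) (x g : G) (H : Subgroup G),
      p.Prime ∧ p ≠ 2 ∧ orderOf x = p ∧ H = closure ({x, g⁻¹ * x * g} : Set G) ∧ Infinite H ∧
      (∀ K ≤ H, Finite K ∨ K.relIndex H ≠ 0) ∧
      (∀ h ∈ H, Odd (orderOf h)) ∧
      (∀ h ∈ H, h ≠ 1 → Finite (centralizer ({h} : Set G) ⊓ H : Subgroup G)) ∧
      (∀ M ≤ H, M.relIndex H ≠ 0 → ∃ (q : ℕ) (x' g' : G), q.Prime ∧ q ≠ 2 ∧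
        x' ∈ M ∧ g' ∈ M ∧ orderOf x' = q ∧
        Infinite (closure ({x', g'⁻¹ * x' * g'} : Set G))) := by
  obtain ⟨H0, hH0, hH0F⟩ := exists_min_infinite hmin
  -- properties of H0 as a group
  have htor' : ∀ g : H0, IsOfFinOrder g := fun g =>
    (Subgroup.subtype_injective H0).isOfFinOrder_iff.1 (htor g)
  have hRF' : ∀ g : H0, g ≠ 1 → ∃ N : Subgroup H0, N.Normal ∧ N.index ≠ 0 ∧ g ∉ N := by
    intro g hg
    obtain ⟨N, hN, hNi, hgN⟩ := hRF g (fun h => hg (Subtype.ext h))
    have hfi : N.FiniteIndex := ⟨hNi⟩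
    exact ⟨N.subgroupOf H0, inferInstance, Subgroup.FiniteIndex.index_ne_zero, hgN⟩
  have hFF : ∀ K : Subgroup H0, Infinite K → K.index ≠ 0 := by
    intro K hK
    have h1 : Infinite (K.map H0.subtype) :=
      Infinite.of_injective _ (K.equivMapOfInjective H0.subtype H0.subtype_injective).injective
    have h2 := hH0F _ (Subgroup.map_subtype_le K) h1
    have h3 : (K.map H0.subtype).subgroupOf H0 = K :=
      Subgroup.comap_map_eq_self_of_injective H0.subtype_injective K
    rw [Subgroup.relIndex, h3] at h2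
    exact h2
  obtain ⟨N0, hN0, hN0i, hN0c⟩ := exists_finite_centralizers htor' hRF' hFF
  set N := N0.map H0.subtype with hN
  have hNH0 : N ≤ H0 := Subgroup.map_subtype_le N0
  have hNinf : Infinite N := by
    have h0 : Infinite N0 := infinite_of_index_ne_zero N0 hN0i
    exact Infinite.of_injective _
      (N0.equivMapOfInjective H0.subtype H0.subtype_injective).injective
  have hNc : ∀ h ∈ N, h ≠ 1 → Finite (centralizer ({h} : Set G) ⊓ N : Subgroup G) := by
    rintro _ ⟨h, hh, rfl⟩ hh1
    have hf := hN0c h hh (fun e => hh1 (by rw [e, map_one]))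
    let f : (centralizer ({H0.subtype h} : Set G) ⊓ N : Subgroup G) →
        centralizer ({h} : Set H0) := fun y => ⟨⟨y, hNH0 y.2.2⟩, by
        rw [Subgroup.mem_centralizer_iff]
        intro z hz
        rw [Set.mem_singleton_iff.1 hz]
        exact Subtype.ext (Subgroup.mem_centralizer_iff.1 y.2.1 _ rfl)⟩
    exact Finite.of_injective f (fun a b hab => by
      have h1 := congrArg Subtype.val (congrArg Subtype.val hab)
      exact Subtype.ext h1)
  obtain ⟨⟨p, x, g, hp, hp2, hxN, hgN, hx, hclinf⟩, -⟩ := exists_pair htor hRF N hNinf hNc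
  have hle : closure ({x, g⁻¹ * x * g} : Set G) ≤ N := by
    rw [Subgroup.closure_le]
    rintro z (rfl | hz)
    · exact hxN
    · rw [Set.mem_singleton_iff.1 hz]
      exact mul_mem (mul_mem (inv_mem hgN) hxN) hgN
  refine ⟨p, x, g, _, hp, hp2, hx, rfl, hclinf, ?_, ?_, ?_, ?_⟩
  · intro K hK
    rcases finite_or_infinite K with h | h
    · exact Or.inl h
    · right
      have h1 := hH0F K (hK.trans (hle.trans hNH0)) h
      intro h2
      exact h1 (Subgroup.relIndex_eq_zero_of_le_right (hle.trans hNH0) h2)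
  · intro h hh
    rw [← Nat.not_even_iff_odd, even_iff_two_dvd]
    intro h2
    refine (exists_pair htor hRF N hNinf hNc).2 (h ^ (orderOf h / 2))
      (pow_mem (hle hh) _) ?_
    exact orderOf_pow_orderOf_div (htor h).orderOf_pos.ne' h2
  · intro h hh hh1
    have := hNc h (hle hh) hh1
    exact Finite.of_injective
      (Subgroup.inclusion (inf_le_inf_left (centralizer ({h} : Set G)) hle))
      (Subgroup.inclusion_injective _)
  · intro M hM hMi
    have hMinf : Infinite M := by
      have h1 : Infinite (M.subgroupOf (closure ({x, g⁻¹ * x * g} : Set G))) :=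
        infinite_of_index_ne_zero _ hMi
      exact Infinite.of_injective
        (fun y : M.subgroupOf (closure ({x, g⁻¹ * x * g} : Set G)) =>
          (⟨(y : closure ({x, g⁻¹ * x * g} : Set G)), y.2⟩ : M))
        (fun a b hab => by
          have h1 := congrArg Subtype.val hab
          exact Subtype.ext (Subtype.ext h1))
    exact (exists_pair htor hRF M hMinf (by
      intro h hh hh1
      have := hNc h (hle (hM hh)) hh1
      exact Finite.of_injective
        (Subgroup.inclusion (inf_le_inf_left (centralizer ({h} : Set G)) (hM.trans hle)))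
        (Subgroup.inclusion_injective _))).1

end Pool.Agent.Results.MP_b731ff_al.ConjugatePairs
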