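import Mathlib
import Pool.Agent.Helper38.WM.Main
import Pool.Agent.Helper60.WM.M_IDX
import Pool.Agent.Helper45.WM.M_REC
import Pool.Agent.Helper78.WM.M_AUG
import Pool.Agent.Helper10.WM.M_FOX
import Pool.Agent.Helper97.WM.M_JFW
import Pool.Agent.Helper78.WM.M_GSW
import Pool.Agent.Helper48.WM.M_NUW
import Pool.Agent.Helper33.WM.M_TRW

set_option autoImplicit false

namespace Pool.Agent.Results.MP_b731ff_al.GolodShafarevich

universe u

/-- The weak minimum condition for subgroups (as in the frozen statement): in every descending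
chain of subgroups all but finitely many successive indices are finite. -/
def WeakMin (G : Type*) [Group G] : Prop :=
  ∀ H : ℕ → Subgroup G, Antitone H →
    ∃ n : ℕ, ∀ m : ℕ, n ≤ m → ((H (m + 1)).subgroupOf (H m)).index ≠ 0

/-- The augmentation ideal of the group algebra of `S` over the field with `p` elements: the
subspace spanned by the elements `g - 1`. -/
noncomputable def Aug (p : ℕ) (S : Type*) [Group S] : Submodule (ZMod p) (MonoidAlgebra (ZMod p) S) :=
  Submodule.span (ZMod p) (Set.range fun g : S => MonoidAlgebra.of (ZMod p) S g - 1)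

/-- Let the free generators `x` have the degrees `d x`.  The element `g` of the free group has
degree at least `e`: `g - 1` lies in the `e`-th term of every multiplicative filtration `J` of the
group algebra (over the field with `p` elements) in which `x - 1` lies in `J (d x)` for every `x`. -/
def DegGE (p : ℕ) {X : Type} (d : X → ℕ) (g : FreeGroup X) (e : ℕ) : Prop :=
  ∀ J : ℕ → Submodule (ZMod p) (MonoidAlgebra (ZMod p) (FreeGroup X)), J 0 = ⊤ → Antitone J →
    (∀ m l, J m * J l ≤ J (m + l)) →
    (∀ x, MonoidAlgebra.of (ZMod p) (FreeGroup X) (FreeGroup.of x) - 1 ∈ J (d x)) →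
    MonoidAlgebra.of (ZMod p) (FreeGroup X) g - 1 ∈ J e

/-- `S` has a presentation of positive weighted deficiency (a Golod-Shafarevich presentation) with
respect to `p`: finitely many generators `x` of degrees `d x ≥ 1`, an arbitrary family of relators
`r i` of degrees at least `e i ≥ 1`, and `1 - ∑ t ^ d x + ∑ t ^ e i < 0` for some `0 < t < 1`. -/
def PosDef (p : ℕ) (S : Type) [Group S] : Prop :=
  ∃ (X ι : Type) (_ : Fintype X) (r : ι → FreeGroup X) (d : X → ℕ) (e : ι → ℕ) (t : ℝ),
    0 < t ∧ t < 1 ∧ (∀ x, 1 ≤ d x) ∧ (∀ i, 1 ≤ e i) ∧ (∀ i, DegGE p d (r i) (e i)) ∧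
    Summable (fun i => t ^ e i) ∧ 1 - ∑ x, t ^ d x + ∑' i, t ^ e i < 0 ∧
    Nonempty (S ≃* PresentedGroup (Set.range r))

/-- Let `G` be a group with the weak minimum condition and `S` a section of `G` (a quotient of a
subgroup `L` of `G`).
(1) If `S` has normal subgroups of arbitrarily large finite index, then there is a `k` such that
`S` has subgroups `N` of arbitrarily large finite index which are topologically generated by at most
`k` elements (in the profinite topology of `S`).
(2) For every prime `p` and every multiplicative filtration `J` of the group algebra of `S` over the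
field with `p` elements by subspaces of finite codimension, the codimension of `J n` grows
subexponentially.
(3) In particular this holds for the powers of the augmentation ideal, if `S` is finitely generated.
(4) `S` has no presentation of positive weighted deficiency (no Golod-Shafarevich presentation). -/
theorem result (G : Type u) [Group G] (hG : WeakMin G) (L : Subgroup G) (S : Type) [Group S]
    (f : L →* S) (hf : Function.Surjective f) :
    ((∀ n : ℕ, ∃ K : Subgroup S, K.Normal ∧ K.FiniteIndex ∧ n < K.index) →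
      ∃ k : ℕ, ∀ n : ℕ, ∃ (N : Subgroup S) (T : Finset S), N.FiniteIndex ∧ n < N.index ∧
        T.card ≤ k ∧ (T : Set S) ⊆ N ∧
        ∀ K : Subgroup S, K.Normal → K.FiniteIndex → N ≤ Subgroup.closure (T : Set S) ⊔ K) ∧
    (∀ p : ℕ, p.Prime → ∀ J : ℕ → Submodule (ZMod p) (MonoidAlgebra (ZMod p) S), J 0 = ⊤ →
      Antitone J → (∀ m l, J m * J l ≤ J (m + l)) →
      (∀ n, Module.Finite (ZMod p) (MonoidAlgebra (ZMod p) S ⧸ J n)) → ∀ q : ℝ, 1 < q →
      ∀ᶠ n in Filter.atTop,
        (Module.finrank (ZMod p) (MonoidAlgebra (ZMod p) S ⧸ J n) : ℝ) < q ^ n) ∧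
    (Group.FG S → ∀ p : ℕ, p.Prime → ∀ q : ℝ, 1 < q → ∀ᶠ n in Filter.atTop,
      Module.Finite (ZMod p) (MonoidAlgebra (ZMod p) S ⧸ Aug p S ^ n) ∧
        (Module.finrank (ZMod p) (MonoidAlgebra (ZMod p) S ⧸ Aug p S ^ n) : ℝ) < q ^ n) ∧
    (∀ p : ℕ, p.Prime → ¬ PosDef p S) := by
  have hS : Pool.Agent.Helper38.WM.WeakMin S :=
    Pool.Agent.Helper38.WM.WeakMin.quotient (Pool.Agent.Helper38.WM.WeakMin.subgroup hG L) f hf
  refine ⟨Pool.Agent.Helper38.WM.main1 hS, ?_, ?_, ?_⟩
  · intro p hp J h0 hJ hmul hfin q hq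
    exact Pool.Agent.Helper38.WM.main2 Pool.Agent.Helper60.WM.hIDX Pool.Agent.Helper45.WM.hREC
      hS p hp J h0 hJ hmul hfin q hq
  · intro hFG p hp q hq
    exact Pool.Agent.Helper38.WM.main2' Pool.Agent.Helper60.WM.hIDX Pool.Agent.Helper45.WM.hREC
      Pool.Agent.Helper78.WM.hAUG hS hFG p hp q hq
  · rintro p hp ⟨X, ι, _, r, d, e, t, ht0, ht1, hd, he, hr, hsum, hneg, ⟨φ⟩⟩
    exact Pool.Agent.Helper38.WM.main3 Pool.Agent.Helper60.WM.hIDX Pool.Agent.Helper45.WM.hREC
      Pool.Agent.Helper10.WM.hFOX Pool.Agent.Helper97.WM.hJFW Pool.Agent.Helper78.WM.hGSW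
      Pool.Agent.Helper48.WM.hNUW Pool.Agent.Helper33.WM.hTRW hS p hp X ι r d e t ht0 ht1 hd he hr
      hsum hneg φ.toMonoidHom φ.surjective

end Pool.Agent.Results.MP_b731ff_al.GolodShafarevich
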