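import Mathlib
import Pool.Agent.Helper76.GT.Final
import Pool.Agent.Helper76.WM.Contract

set_option autoImplicit false

namespace Pool.Agent.Results.MP_b731ff_al.OrbitalGrowth

open Filter
open scoped Pointwise

universe u v

/-- Residually finite (as in the frozen statement). -/
def ResFin (G : Type*) [Group G] : Prop :=
  ∀ g : G, g ≠ 1 → ∃ N : Subgroup G, N.Normal ∧ N.index ≠ 0 ∧ g ∉ N

/-- The weak minimal condition on subgroups (as in the frozen statement): in every descending
chain of subgroups all but finitely many successive indices are finite. -/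
def WeakMin (G : Type*) [Group G] : Prop :=
  ∀ H : ℕ → Subgroup G, Antitone H →
    ∃ n : ℕ, ∀ m : ℕ, n ≤ m → ((H (m + 1)).subgroupOf (H m)).index ≠ 0

/-- The action is faithful. -/
def Faithful (G X : Type*) [Group G] [MulAction G X] : Prop :=
  ∀ g : G, (∀ x : X, g • x = x) → g = 1

/-- Uniformly polynomial orbital growth along a sequence: for every finite subset `S` of `G`
there are `C` and `d` such that, for infinitely many `n`, the set `S ^ n • x` has at most
`C * n ^ d` elements for all `x`. -/
def PolyOrb (G X : Type*) [Group G] [MulAction G X] : Prop :=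
  ∀ S : Set G, S.Finite → ∃ C d : ℕ, ∃ᶠ n : ℕ in atTop,
    ∀ x : X, ((fun g : G => g • x) '' (S ^ n)).ncard ≤ C * n ^ d

/-- Contracting self-similar groups: `Γ` acts faithfully on the words over the alphabet `α`,
preserves the lengths of words, every `g` has a section `sec g v` in `Γ` at every word `v`, and
there is a finite set `N` which contains all sections of `g` at all long words, for all `g`. -/
def Contracting (α Γ : Type*) [Group Γ] [MulAction Γ (List α)] : Prop :=
  Faithful Γ (List α) ∧ (∀ (g : Γ) (w : List α), (g • w).length = w.length) ∧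
    ∃ sec : Γ → List α → Γ, (∀ (g : Γ) (v w : List α), g • (v ++ w) = (g • v) ++ (sec g v) • w) ∧
      ∃ N : Set Γ, N.Finite ∧ ∀ g : Γ, ∃ m : ℕ, ∀ v : List α, m ≤ v.length → sec g v ∈ N

/-- (1) A periodic residually finite group `G` with the weak minimal condition which has a
faithful action with uniformly polynomial orbital growth along a sequence is finite.
(2) In particular, every periodic subgroup `G` with the weak minimal condition of a contracting
self-similar group over a finite alphabet is finite.
(3) In particular, a periodic residually finite group `G` with the weak minimal condition is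
finite if it acts faithfully by permutations of bounded displacement on a metric space whose balls
of radius `r` have at most `C * (r + 1) ^ D` points. -/
theorem result :
    (∀ (G : Type u) (X : Type v) [Group G] [MulAction G X], (∀ g : G, IsOfFinOrder g) →
      ResFin G → WeakMin G → Faithful G X → PolyOrb G X → Finite G) ∧
    (∀ (α : Type u) (Γ : Type v) [Finite α] [Group Γ] [MulAction Γ (List α)],
      Contracting α Γ → ∀ G : Subgroup Γ, (∀ g : G, IsOfFinOrder g) → WeakMin G → Finite G) ∧
    (∀ (G : Type u) (X : Type v) [Group G] [PseudoMetricSpace X] [MulAction G X],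
      (∀ g : G, IsOfFinOrder g) → ResFin G → WeakMin G → Faithful G X →
      (∃ C D : ℕ, ∀ (x : X) (r : ℕ), (Metric.closedBall x r).Finite ∧
        (Metric.closedBall x r).ncard ≤ C * (r + 1) ^ D) →
      (∀ g : G, ∃ R : ℕ, ∀ x : X, dist (g • x) x ≤ R) → Finite G) := by
  refine ⟨?_, ?_, ?_⟩
  · intro G X _ _ htor hRF hmin hfaith horb
    exact Pool.Agent.Helper76.GT.finite_main G X htor hRF hmin hfaith horb
  · rintro α Γ _ _ _ ⟨hfaith, hlen, sec, hsec, N, hN, hcontr⟩ G htor hmin
    exact Pool.Agent.Helper76.GT.finite_main G (List α) htor
      (Pool.Agent.Helper76.WM.rf_of_tree hfaith hlen G) hmin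
      (fun g hg => Subtype.ext (hfaith g hg))
      (Pool.Agent.Helper76.WM.polyOrb_of_contracting hfaith hlen sec hsec N hN hcontr G)
  · rintro G X _ _ _ htor hRF hmin hfaith ⟨C, D, hX⟩ hb
    exact Pool.Agent.Helper76.GT.finite_main G X htor hRF hmin hfaith
      (Pool.Agent.Helper76.WM.polyOrb_of_bounded C D hX hb)

end Pool.Agent.Results.MP_b731ff_al.OrbitalGrowth
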