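import Mathlib
import Pool.Agent.Helper76.PG.Main

set_option autoImplicit false

namespace Pool.Agent.Results.MP_b731ff_al.TwoPrimeGroups

open scoped Pointwise

universe u v

/-- Residually finite (as in the frozen statement). -/
def ResFin (G : Type*) [Group G] : Prop :=
  ∀ g : G, g ≠ 1 → ∃ N : Subgroup G, N.Normal ∧ N.index ≠ 0 ∧ g ∉ N

/-- The weak minimal condition on subgroups (as in the frozen statement): in every descending
chain of subgroups all but finitely many successive indices are finite. -/
def WeakMin (G : Type*) [Group G] : Prop :=
  ∀ H : ℕ → Subgroup G, Antitone H →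
    ∃ n : ℕ, ∀ m : ℕ, n ≤ m → ((H (m + 1)).subgroupOf (H m)).index ≠ 0

/-- The action is faithful. -/
def Faithful (G X : Type*) [Group G] [MulAction G X] : Prop :=
  ∀ g : G, (∀ x : X, g • x = x) → g = 1

/-- The orbits grow slower than `2 ^ sqrt n`, uniformly and along a sequence: for every finite
subset `S` of `G` and every `K` there is an `n` such that `K * |S ^ n • x| < 2 ^ ⌊sqrt n⌋` for
all `x`. -/
def SlowOrb (G X : Type*) [Group G] [MulAction G X] : Prop :=
  ∀ S : Set G, S.Finite → ∀ K : ℕ, ∃ n : ℕ,
    ∀ x : X, K * ((fun g : G => g • x) '' (S ^ n)).ncard < 2 ^ Nat.sqrt n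

/-- `G` acts on the words over `α` by automorphisms of the rooted tree of all words: it preserves
the lengths of the words and the prefix relation. -/
def TreeAction (α G : Type*) [Group G] [MulAction G (List α)] : Prop :=
  (∀ (g : G) (w : List α), (g • w).length = w.length) ∧
    ∀ (g : G) (v w : List α), (g • v) <+: (g • (v ++ w))

/-- (1) Let `p` be a prime and let `G` be a residually finite group with the weak minimal
condition in which the order of every element is of the form `2 ^ a * p ^ b`. If `G` acts
faithfully on a set with orbital growth slower than `2 ^ sqrt n`, then `G` is finite.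
(2) In particular, a periodic group of automorphisms of the rooted tree of words over at most four
letters with the weak minimal condition, whose orbits on the vertices grow slower than
`2 ^ sqrt n`, is finite. -/
theorem result :
    (∀ (G : Type u) (X : Type v) [Group G] [MulAction G X] (p : ℕ), p.Prime →
      (∀ g : G, ∃ a b : ℕ, g ^ (2 ^ a * p ^ b) = 1) →
      ResFin G → WeakMin G → Faithful G X → SlowOrb G X → Finite G) ∧
    (∀ (α : Type u) (G : Type v) [Finite α] [Group G] [MulAction G (List α)],
      Nat.card α ≤ 4 → Faithful G (List α) → TreeAction α G → (∀ g : G, IsOfFinOrder g) →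
      WeakMin G → SlowOrb G (List α) → Finite G) := by
  refine ⟨?_, ?_⟩
  · intro G X _ _ p hp htor hRF hmin hfaith horb
    exact Pool.Agent.Helper76.PG.finite_of_slowOrb G X p hp htor hRF hmin hfaith horb
  · rintro α G _ _ _ hα hfaith ⟨hlen, hpre⟩ htor hmin horb
    exact Pool.Agent.Helper76.PG.finite_of_tree hα hfaith hlen hpre htor hmin horb

end Pool.Agent.Results.MP_b731ff_al.TwoPrimeGroups
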